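import Mathlib

/-!
# The group of the `2 × 2` matrices of determinant one over the field with five elements

Written down by four entries, for computations by the kernel.
-/

set_option autoImplicit false

namespace Pool.Agent.KS6_57.SG

/-- `SL(2, 5)`: the quadruples `(a, b, c, d)` with `a d - b c = 1` -/
def S : Type := {x : ZMod 5 × ZMod 5 × ZMod 5 × ZMod 5 // x.1 * x.2.2.2 - x.2.1 * x.2.2.1 = 1}

instance : DecidableEq S := inferInstanceAs (DecidableEq {x : ZMod 5 × ZMod 5 × ZMod 5 × ZMod 5 //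
  x.1 * x.2.2.2 - x.2.1 * x.2.2.1 = 1})

instance : Fintype S := inferInstanceAs (Fintype {x : ZMod 5 × ZMod 5 × ZMod 5 × ZMod 5 //
  x.1 * x.2.2.2 - x.2.1 * x.2.2.1 = 1})

instance : Mul S := ⟨fun x y => ⟨(x.1.1 * y.1.1 + x.1.2.1 * y.1.2.2.1,
  x.1.1 * y.1.2.1 + x.1.2.1 * y.1.2.2.2, x.1.2.2.1 * y.1.1 + x.1.2.2.2 * y.1.2.2.1,
  x.1.2.2.1 * y.1.2.1 + x.1.2.2.2 * y.1.2.2.2), by
    obtain ⟨⟨a, b, c, d⟩, h⟩ := x
    obtain ⟨⟨a', b', c', d'⟩, h'⟩ := y
    simp only at h h' ⊢
    linear_combination (a' * d' - b' * c') * h + h'⟩⟩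

instance : One S := ⟨⟨(1, 0, 0, 1), by simp⟩⟩

instance : Inv S := ⟨fun x => ⟨(x.1.2.2.2, -x.1.2.1, -x.1.2.2.1, x.1.1), by
  have h := x.2
  linear_combination h⟩⟩

theorem S.ext' {x y : S} (h1 : x.1.1 = y.1.1) (h2 : x.1.2.1 = y.1.2.1)
    (h3 : x.1.2.2.1 = y.1.2.2.1) (h4 : x.1.2.2.2 = y.1.2.2.2) : x = y :=
  Subtype.ext (Prod.ext h1 (Prod.ext h2 (Prod.ext h3 h4)))

theorem mul_val (x y : S) : (x * y).1 = (x.1.1 * y.1.1 + x.1.2.1 * y.1.2.2.1,
  x.1.1 * y.1.2.1 + x.1.2.1 * y.1.2.2.2, x.1.2.2.1 * y.1.1 + x.1.2.2.2 * y.1.2.2.1,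
  x.1.2.2.1 * y.1.2.1 + x.1.2.2.2 * y.1.2.2.2) := rfl

theorem one_val : (1 : S).1 = (1, 0, 0, 1) := rfl

theorem inv_val (x : S) : (x⁻¹).1 = (x.1.2.2.2, -x.1.2.1, -x.1.2.2.1, x.1.1) := rfl

instance : Group S := Group.ofLeftAxioms
  (by
    intro x y z
    apply S.ext' <;> simp only [mul_val] <;> ring)
  (by
    intro x
    apply S.ext' <;> simp only [mul_val, one_val] <;> ring)
  (by
    intro x
    have h := x.2
    apply S.ext' <;> simp only [mul_val, one_val, inv_val]
    · linear_combination h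
    · ring
    · ring
    · linear_combination h)

theorem card_S : Fintype.card S = 120 := by decide +kernel

/-- minus the identity -/
def z : S := ⟨(-1, 0, 0, -1), by decide⟩

theorem invol : ∀ x : S, x * x = 1 → x = 1 ∨ x = z := by decide +kernel

theorem z_mul_z : z * z = 1 := by decide

theorem z_ne_one : z ≠ 1 := by decide

theorem z_comm : ∀ x : S, x * z = z * x := by decide +kernel

theorem card_eq : Nat.card S = 120 := by rw [Nat.card_eq_fintype_card, card_S]

/-- equality or anticommutation up to sign, for two elements of order four -/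
def rel (x y : S) : Prop := x = y ∨ x = z * y ∨ x * y = z * (y * x)

instance (x y : S) : Decidable (rel x y) := by unfold rel; infer_instance

/-- five elements of order four -/
def A (i : Fin 5) : S := if i = 0 then ⟨(0, 1, 4, 0), by decide⟩ else
  if i = 1 then ⟨(2, 0, 1, 3), by decide⟩ else
  if i = 2 then ⟨(2, 0, 3, 3), by decide⟩ else
  if i = 3 then ⟨(2, 0, 2, 3), by decide⟩ else ⟨(2, 0, 4, 3), by decide⟩

/-- the class of an element of order four -/
def cls (x : S) : Fin 5 := if rel x (A 0) then 0 else if rel x (A 1) then 1 else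
  if rel x (A 2) then 2 else if rel x (A 3) then 3 else 4

theorem A_sq : ∀ i, A i * A i = z := by decide +kernel

theorem cls_A : ∀ i, cls (A i) = i := by decide +kernel

theorem rel_cls : ∀ x : S, x * x = z → rel x (A (cls x)) := by decide +kernel

theorem cls_eq_of_rel : ∀ x : S, x * x = z → ∀ y : S, y * y = z → rel x y → cls x = cls y := by
  decide +kernel

theorem rel_conj (m : S) {x y : S} (h : rel x y) : rel (m * x * m⁻¹) (m * y * m⁻¹) := by
  rcases h with h | h | h
  · exact Or.inl (by rw [h])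
  · refine Or.inr (Or.inl ?_)
    rw [h, ← mul_assoc, ← mul_assoc, ← mul_assoc, z_comm m]
  · refine Or.inr (Or.inr ?_)
    have h1 : m * x * m⁻¹ * (m * y * m⁻¹) = m * (x * y) * m⁻¹ := by group
    have h2 : m * y * m⁻¹ * (m * x * m⁻¹) = m * (y * x) * m⁻¹ := by group
    rw [h1, h2, h, ← mul_assoc m z, z_comm m, mul_assoc z, mul_assoc z]

theorem conj_sq (m : S) {x : S} (h : x * x = z) : (m * x * m⁻¹) * (m * x * m⁻¹) = z := by
  have h1 : m * x * m⁻¹ * (m * x * m⁻¹) = m * (x * x) * m⁻¹ := by group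
  rw [h1, h, z_comm m, mul_assoc, mul_inv_cancel, mul_one]

/-- the action on the five classes -/
def act (m : S) (i : Fin 5) : Fin 5 := cls (m * A i * m⁻¹)

theorem act_one (i : Fin 5) : act 1 i = i := by
  rw [act, one_mul, inv_one, mul_one, cls_A]

theorem act_mul (m n : S) (i : Fin 5) : act (m * n) i = act m (act n i) := by
  have h1 : m * n * A i * (m * n)⁻¹ = m * (n * A i * n⁻¹) * m⁻¹ := by group
  have h2 := conj_sq n (A_sq i)
  rw [act, h1]
  exact cls_eq_of_rel _ (conj_sq m h2) _ (conj_sq m (A_sq _)) (rel_conj m (rel_cls _ h2))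

/-- the homomorphism to the symmetric group -/
def hom : S →* Equiv.Perm (Fin 5) where
  toFun m := ⟨act m, act m⁻¹, fun i => by rw [← act_mul, inv_mul_cancel, act_one],
    fun i => by rw [← act_mul, mul_inv_cancel, act_one]⟩
  map_one' := Equiv.ext act_one
  map_mul' m n := Equiv.ext (act_mul m n)

theorem sign_hom : ∀ m : S, Equiv.Perm.sign (hom m) = 1 := by decide +kernel

theorem eq_of_act : ∀ m : S, (∀ i, act m i = i) → m = 1 ∨ m = z := by decide +kernel

theorem act_z (i : Fin 5) : act z i = i := by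
  rw [act, ← z_comm, mul_assoc, mul_inv_cancel, mul_one, cls_A]

/-- the homomorphism to the alternating group -/
def pi : S →* alternatingGroup (Fin 5) :=
  hom.codRestrict _ (fun m => Equiv.Perm.mem_alternatingGroup.2 (sign_hom m))

theorem pi_eq_one {m : S} : pi m = 1 ↔ m = 1 ∨ m = z := by
  constructor
  · intro h
    have h1 : hom m = 1 := congrArg Subtype.val h
    exact eq_of_act m (fun i => congrArg (fun f : Equiv.Perm (Fin 5) => f i) h1)
  · rintro (h | h)
    · rw [h, map_one]
    · apply Subtype.ext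
      rw [h]
      exact Equiv.ext act_z

theorem card_ker : Nat.card pi.ker = 2 := by
  have h : (pi.ker : Set S) = {1, z} := by
    ext m
    rw [SetLike.mem_coe, MonoidHom.mem_ker, pi_eq_one]
    rfl
  rw [← Nat.card_congr (Equiv.refl _), ← SetLike.coe_sort_coe, h, Nat.card_coe_set_eq,
    Set.ncard_pair (fun e => z_ne_one e.symm)]

theorem pi_surjective : Function.Surjective pi := by
  have h1 : Nat.card pi.range = 60 := by
    have h2 := Subgroup.card_mul_index pi.ker
    rw [Subgroup.index_ker, card_ker, card_eq] at h2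
    omega
  rw [← MonoidHom.range_eq_top]
  apply Subgroup.eq_top_of_card_eq
  rw [h1, nat_card_alternatingGroup]
  simp
  decide

end Pool.Agent.KS6_57.SG
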