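import Pool.Graph.R_pool_sql_team_seeded_2aa45f1a.Results.MP_927db0_al.BothSetsFinite
import Pool.Agent.KS6_57.SG.Bin

/-!
# The orders of the non-normal subgroups of `SL(2, 5) × D`, `D` abelian of order `2 ^ a`
-/

set_option autoImplicit false

namespace Pool.Agent.KS6_57.SG

open Pool.Agent.Q115.A5Sub Pool.Agent.Results.MP_927db0_al.BothSetsFinite

/-- the orders `c * 2 ^ i` -/
def G (a : ℕ) : Finset ℕ :=
  (Finset.Icc 2 (a + 3)).image (fun j => 2 ^ j) ∪
    ((Finset.range (a + 4)).image (fun j => 3 * 2 ^ j) ∪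
      (Finset.range (a + 3)).image (fun j => 5 * 2 ^ j))

theorem mem_G {a n : ℕ} : n ∈ G a ↔ (∃ j, 2 ≤ j ∧ j ≤ a + 3 ∧ n = 2 ^ j) ∨
    (∃ j, j ≤ a + 3 ∧ n = 3 * 2 ^ j) ∨ (∃ j, j ≤ a + 2 ∧ n = 5 * 2 ^ j) := by
  simp only [G, Finset.mem_union, Finset.mem_image, Finset.mem_Icc, Finset.mem_range]
  constructor
  · rintro (⟨j, ⟨h1, h2⟩, rfl⟩ | ⟨j, h1, rfl⟩ | ⟨j, h1, rfl⟩)
    · exact Or.inl ⟨j, h1, h2, rfl⟩
    · exact Or.inr (Or.inl ⟨j, by omega, rfl⟩)
    · exact Or.inr (Or.inr ⟨j, by omega, rfl⟩)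
  · rintro (⟨j, h1, h2, rfl⟩ | ⟨j, h1, rfl⟩ | ⟨j, h1, rfl⟩)
    · exact Or.inl ⟨j, ⟨h1, h2⟩, rfl⟩
    · exact Or.inr (Or.inl ⟨j, by omega, rfl⟩)
    · exact Or.inr (Or.inr ⟨j, by omega, rfl⟩)

theorem card_G (a : ℕ) : (G a).card = 3 * a + 9 := by
  have hinj : Function.Injective (fun j : ℕ => 2 ^ j) := Nat.pow_right_injective le_rfl
  have h3 : Function.Injective (fun j : ℕ => 3 * 2 ^ j) := fun x y h =>
    hinj (Nat.eq_of_mul_eq_mul_left (by norm_num) h)
  have h5 : Function.Injective (fun j : ℕ => 5 * 2 ^ j) := fun x y h =>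
    hinj (Nat.eq_of_mul_eq_mul_left (by norm_num) h)
  rw [G, Finset.card_union_of_disjoint, Finset.card_union_of_disjoint,
    Finset.card_image_of_injective _ hinj, Finset.card_image_of_injective _ h3,
    Finset.card_image_of_injective _ h5, Nat.card_Icc, Finset.card_range, Finset.card_range]
  · omega
  · rw [Finset.disjoint_left]
    simp only [Finset.mem_image]
    rintro _ ⟨j, -, rfl⟩ ⟨l, -, hl⟩
    exact three_not_dvd_five l (hl ▸ Dvd.intro _ rfl)
  · rw [Finset.disjoint_left]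
    simp only [Finset.mem_image, Finset.mem_union]
    rintro _ ⟨j, -, rfl⟩ (⟨l, -, hl⟩ | ⟨l, -, hl⟩)
    · exact three_not_dvd_two_pow j (hl ▸ Dvd.intro _ rfl)
    · exact five_not_dvd_two_pow j (hl ▸ Dvd.intro _ rfl)

/-- orders of subgroups of `SL(2,5)` that are neither central nor everything -/
theorem mul_mem_G {a c i : ℕ} (hc : c ∈ ({2, 3, 4, 5, 6, 10, 12} : Finset ℕ)) (hi : i ≤ a + 1)
    (h2 : c * 2 ^ i ≠ 2) : c * 2 ^ i ∈ G a := by
  rw [mem_G]
  simp only [Finset.mem_insert, Finset.mem_singleton] at hc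
  rcases hc with rfl | rfl | rfl | rfl | rfl | rfl | rfl
  · refine Or.inl ⟨i + 1, ?_, by omega, by ring⟩
    rcases Nat.eq_zero_or_pos i with h | h
    · subst h; simp at h2
    · omega
  · exact Or.inr (Or.inl ⟨i, by omega, rfl⟩)
  · exact Or.inl ⟨i + 2, by omega, by omega, by ring⟩
  · exact Or.inr (Or.inr ⟨i, by omega, rfl⟩)
  · exact Or.inr (Or.inl ⟨i + 1, by omega, by ring⟩)
  · exact Or.inr (Or.inr ⟨i + 1, by omega, by ring⟩)
  · exact Or.inr (Or.inl ⟨i + 2, by omega, by ring⟩)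

theorem exists_of_mem_G {a n : ℕ} (h : n ∈ G a) :
    ∃ c ∈ ({3, 4, 5, 6, 8, 10, 12, 20, 24} : Finset ℕ), ∃ i ≤ a, n = c * 2 ^ i := by
  rw [mem_G] at h
  rcases h with ⟨j, h1, h2, rfl⟩ | ⟨j, h1, rfl⟩ | ⟨j, h1, rfl⟩
  · rcases Nat.lt_or_ge (a + 2) j with h | h
    · refine ⟨8, by decide, a, le_rfl, ?_⟩
      have : j = a + 3 := by omega
      subst this; ring
    · refine ⟨4, by decide, j - 2, by omega, ?_⟩
      obtain ⟨j, rfl⟩ : ∃ l, j = l + 2 := ⟨j - 2, by omega⟩
      rw [Nat.add_sub_cancel]; ring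
  · rcases Nat.lt_or_ge a j with h | h
    · rcases Nat.lt_or_ge (a + 1) j with h' | h'
      · rcases Nat.lt_or_ge (a + 2) j with h'' | h''
        · refine ⟨24, by decide, a, le_rfl, ?_⟩
          have : j = a + 3 := by omega
          subst this; ring
        · refine ⟨12, by decide, a, le_rfl, ?_⟩
          have : j = a + 2 := by omega
          subst this; ring
      · refine ⟨6, by decide, a, le_rfl, ?_⟩
        have : j = a + 1 := by omega
        subst this; ring
    · exact ⟨3, by decide, j, h, rfl⟩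
  · rcases Nat.lt_or_ge a j with h | h
    · rcases Nat.lt_or_ge (a + 1) j with h' | h'
      · refine ⟨20, by decide, a, le_rfl, ?_⟩
        have : j = a + 2 := by omega
        subst this; ring
      · refine ⟨10, by decide, a, le_rfl, ?_⟩
        have : j = a + 1 := by omega
        subst this; ring
    · exact ⟨5, by decide, j, h, rfl⟩

/-- subgroups of `SL(2,5)` -/
theorem exists_sub_S (q : ℕ) (hq : q ∈ ({3, 4, 5, 6, 8, 10, 12, 20, 24} : Finset ℕ)) :
    ∃ Q : Subgroup S, Nat.card Q = q := by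
  have h3 : Fact (Nat.Prime 3) := ⟨Nat.prime_three⟩
  have h5 : Fact (Nat.Prime 5) := ⟨Nat.prime_five⟩
  have key : ∀ c ∈ ({2, 3, 4, 5, 6, 10, 12} : Finset ℕ), ∃ Q : Subgroup S,
      Nat.card Q = 2 * c := by
    intro c hc
    obtain ⟨P, hP⟩ := exists_sub c hc
    refine ⟨P.comap pi, ?_⟩
    have h1 := (P.comap pi).card_mul_index
    rw [P.index_comap_of_surjective pi_surjective, card_eq] at h1
    have h2 := P.card_mul_index
    rw [card_A5, hP] at h2
    have h4 : 0 < P.index := Nat.pos_of_ne_zero Subgroup.index_ne_zero_of_finite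
    apply Nat.eq_of_mul_eq_mul_right h4
    rw [h1, mul_assoc, h2]
    norm_num
  simp only [Finset.mem_insert, Finset.mem_singleton] at hq
  rcases hq with rfl | rfl | rfl | rfl | rfl | rfl | rfl | rfl | rfl
  · exact Sylow.exists_subgroup_card_pow_prime 3 (n := 1) (by rw [card_eq]; norm_num)
  · exact key 2 (by decide)
  · exact Sylow.exists_subgroup_card_pow_prime 5 (n := 1) (by rw [card_eq]; norm_num)
  · exact key 3 (by decide)
  · exact key 4 (by decide)
  · exact key 5 (by decide)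
  · exact key 6 (by decide)
  · exact key 10 (by decide)
  · exact key 12 (by decide)

/-- a subgroup of one of these orders is not normal -/
theorem not_normal (Q : Subgroup S) (hq : Nat.card Q ∈ ({3, 4, 5, 6, 8, 10, 12, 20, 24} : Finset ℕ)) :
    ¬ Q.Normal := by
  intro hQ
  have h1 : (Q.map pi).Normal := hQ.map pi pi_surjective
  rcases h1.eq_bot_or_eq_top with h | h
  · have h2 : Q ≤ pi.ker := (Subgroup.map_eq_bot_iff Q).1 h
    have h3 := Subgroup.card_le_of_le h2
    rw [card_ker] at h3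
    revert hq
    generalize Nat.card Q = q at h3
    intro hq
    interval_cases q <;> revert hq <;> decide
  · have h2 : Nat.card (Q.map pi) ∣ Nat.card Q := Subgroup.card_map_dvd _ _
    rw [h, Subgroup.card_top, card_A5] at h2
    have h3 := Nat.le_of_dvd Nat.card_pos h2
    simp only [Finset.mem_insert, Finset.mem_singleton] at hq
    omega

section main

variable {D : Type} [CommGroup D]

/-- the projection to `A₅` -/
def P : S × D →* A5 := pi.comp (MonoidHom.fst S D)

theorem P_surjective : Function.Surjective (P (D := D)) := fun g => by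
  obtain ⟨s, hs⟩ := pi_surjective g
  exact ⟨(s, 1), hs⟩

theorem comm_of_P {h : S × D} (hh : P h = 1) (g : S × D) : g * h * g⁻¹ = h := by
  have h1 : g.1 * h.1 * g.1⁻¹ = h.1 := by
    rcases pi_eq_one.1 hh with e | e
    · replace e : h.1 = 1 := e
      rw [e, mul_one, mul_inv_cancel]
    · replace e : h.1 = z := e
      rw [e, z_comm, mul_assoc, mul_inv_cancel, mul_one]
  exact Prod.ext h1 (by
    change g.2 * h.2 * g.2⁻¹ = h.2
    rw [mul_comm g.2, mul_inv_cancel_right])

/-- the kernel of the projection of a subgroup -/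
theorem card_eq_mul (H : Subgroup (S × D)) :
    Nat.card H = Nat.card (H.map P) * Nat.card (P.comp H.subtype).ker := by
  have h1 : (P.comp H.subtype).range = H.map P := by
    rw [MonoidHom.range_comp, Subgroup.range_subtype]
  rw [← h1, ← Subgroup.index_ker, mul_comm]
  exact (Subgroup.card_mul_index _).symm

theorem card_ker_P [Finite D] : Nat.card (P (D := D)).ker = 2 * Nat.card D := by
  have h1 := Subgroup.card_mul_index (P (D := D)).ker
  rw [Subgroup.index_ker, MonoidHom.range_eq_top.2 P_surjective, Subgroup.card_top, card_A5,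
    Nat.card_prod, card_eq] at h1
  omega

theorem card_ker_dvd [Finite D] {a : ℕ} (hD : Nat.card D = 2 ^ a) (H : Subgroup (S × D)) :
    ∃ i ≤ a + 1, Nat.card (P.comp H.subtype).ker = 2 ^ i := by
  have h1 : Nat.card (P.comp H.subtype).ker ∣ 2 ^ (a + 1) := by
    have h2 : Function.Injective (fun x : (P.comp H.subtype).ker =>
        (⟨x.1.1, x.2⟩ : (P (D := D)).ker)) := by
      intro x y e
      exact Subtype.ext (Subtype.ext (congrArg (fun t : (P (D := D)).ker => t.1) e))
    let f : (P.comp H.subtype).ker →* (P (D := D)).ker :=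
      { toFun := fun x => ⟨x.1.1, x.2⟩
        map_one' := rfl
        map_mul' := fun _ _ => rfl }
    have h3 := Subgroup.card_dvd_of_injective f h2
    rwa [card_ker_P, hD, ← pow_succ'] at h3
  exact (Nat.dvd_prime_pow Nat.prime_two).1 h1

/-- a subgroup which projects onto `A₅` is normal -/
theorem normal_of_map_top (H : Subgroup (S × D)) (h : H.map P = ⊤) : H.Normal := by
  set K : Subgroup S := H.comap (MonoidHom.inl S D) with hK
  have hKm : ∀ s : S, s ∈ K ↔ (s, (1 : D)) ∈ H := fun s => Iff.rfl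
  have hex : ∀ g : S, ∃ x ∈ H, x.1 = g ∨ x.1 = z * g := by
    intro g
    have hg : pi g ∈ H.map P := by rw [h]; trivial
    obtain ⟨x, hx, hx2⟩ := hg
    refine ⟨x, hx, ?_⟩
    have h1 : pi (x.1 * g⁻¹) = 1 := by
      rw [map_mul, map_inv, mul_inv_eq_one]
      exact hx2
    rcases pi_eq_one.1 h1 with e | e
    · left; exact mul_inv_eq_one.1 e
    · right; exact mul_inv_eq_iff_eq_mul.1 e
  have hKn : K.Normal := by
    refine ⟨fun n hn g => ?_⟩
    obtain ⟨x, hx, hxg⟩ := hex g
    rw [hKm] at hn ⊢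
    have h1 := H.mul_mem (H.mul_mem hx hn) (H.inv_mem hx)
    have h2 : x * (n, (1 : D)) * x⁻¹ = (g * n * g⁻¹, 1) := by
      refine Prod.ext ?_ ?_
      · change x.1 * n * x.1⁻¹ = g * n * g⁻¹
        rcases hxg with e | e
        · rw [e]
        · rw [e, mul_inv_rev]
          have : z * g * n * (g⁻¹ * z⁻¹) = z * (g * n * g⁻¹) * z⁻¹ := by group
          rw [this, ← z_comm, mul_assoc, mul_inv_cancel, mul_one]
      · change x.2 * 1 * x.2⁻¹ = 1
        simp
    rwa [h2] at h1
  have hcomm : ∀ x ∈ H, ∀ y ∈ H, x.1 * y.1 * x.1⁻¹ * y.1⁻¹ ∈ K := by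
    intro x hx y hy
    rw [hKm]
    have h1 := H.mul_mem (H.mul_mem (H.mul_mem hx hy) (H.inv_mem hx)) (H.inv_mem hy)
    have h2 : x * y * x⁻¹ * y⁻¹ = (x.1 * y.1 * x.1⁻¹ * y.1⁻¹, 1) := by
      refine Prod.ext rfl ?_
      change x.2 * y.2 * x.2⁻¹ * y.2⁻¹ = 1
      rw [mul_comm x.2, mul_inv_cancel_right, mul_inv_cancel]
    rwa [h2] at h1
  have hKt : K.map pi = ⊤ := by
    have h1 : (K.map pi).Normal := hKn.map pi pi_surjective
    rcases h1.eq_bot_or_eq_top with h2 | h2
    · exfalso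
      have h3 : K ≤ pi.ker := (Subgroup.map_eq_bot_iff K).1 h2
      have h4 : ∀ a b : A5, a * b = b * a := by
        intro a b
        have ha : a ∈ H.map P := by rw [h]; trivial
        have hb : b ∈ H.map P := by rw [h]; trivial
        obtain ⟨x, hx, rfl⟩ := ha
        obtain ⟨y, hy, rfl⟩ := hb
        have h5 := h3 (hcomm x hx y hy)
        rw [MonoidHom.mem_ker, map_mul, map_mul, map_mul, map_inv, map_inv,
          mul_inv_eq_one, mul_inv_eq_iff_eq_mul] at h5
        exact h5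
      revert h4
      decide +kernel
    · exact h2
  have hz : z ∈ K := by
    have h1 : pi (A 0) ∈ K.map pi := by rw [hKt]; trivial
    obtain ⟨k, hk, hk2⟩ := h1
    have h2 : pi (k * (A 0)⁻¹) = 1 := by
      rw [map_mul, map_inv, mul_inv_eq_one]; exact hk2
    have h3 : k * k = z := by
      rcases pi_eq_one.1 h2 with e | e
      · rw [mul_inv_eq_one.1 e, A_sq]
      · rw [mul_inv_eq_iff_eq_mul.1 e]
        decide +kernel
    rw [← h3]
    exact K.mul_mem hk hk
  have hKtop : ∀ s : S, s ∈ K := by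
    intro s
    have h1 : pi s ∈ K.map pi := by rw [hKt]; trivial
    obtain ⟨k, hk, hk2⟩ := h1
    have h2 : pi (s * k⁻¹) = 1 := by
      rw [map_mul, map_inv, mul_inv_eq_one]; exact hk2.symm
    rcases pi_eq_one.1 h2 with e | e
    · rw [mul_inv_eq_one.1 e]; exact hk
    · rw [mul_inv_eq_iff_eq_mul.1 e]; exact K.mul_mem hz hk
  refine ⟨fun n hn g => ?_⟩
  have h1 : (g.1 * n.1 * g.1⁻¹ * n.1⁻¹, (1 : D)) ∈ H := hKtop _
  have h2 := H.mul_mem h1 hn
  have h3 : (g.1 * n.1 * g.1⁻¹ * n.1⁻¹, (1 : D)) * n = g * n * g⁻¹ := by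
    refine Prod.ext ?_ ?_
    · change g.1 * n.1 * g.1⁻¹ * n.1⁻¹ * n.1 = g.1 * n.1 * g.1⁻¹
      rw [inv_mul_cancel_right]
    · change 1 * n.2 = g.2 * n.2 * g.2⁻¹
      rw [one_mul, mul_comm g.2, mul_inv_cancel_right]
  rwa [h3] at h2

theorem nonNormalOrders_S_prod [Finite D] {a : ℕ} (hD : Nat.card D = 2 ^ a) :
    nonNormalOrders (S × D) = ↑(G a) := by
  have hp2 : Fact (Nat.Prime 2) := ⟨Nat.prime_two⟩
  ext n
  constructor
  · rintro ⟨H, rfl, hH⟩
    obtain ⟨i, hi, hK⟩ := card_ker_dvd hD H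
    have hb : H.map P ≠ ⊥ := by
      intro hb
      apply hH
      refine ⟨fun h hh g => ?_⟩
      have h1 : P h = 1 := (Subgroup.map_eq_bot_iff H).1 hb hh
      rw [comm_of_P h1]
      exact hh
    have ht : H.map P ≠ ⊤ := fun ht => hH (normal_of_map_top H ht)
    have h2 : Nat.card H ≠ 2 := by
      intro h2
      apply hb
      rw [Subgroup.map_eq_bot_iff]
      intro h hh
      have h3 : (⟨h, hh⟩ : H) ^ 2 = 1 := by
        rw [← h2]
        exact pow_card_eq_one'
      have h4 : h * h = 1 := by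
        have := congrArg Subtype.val h3
        rwa [pow_two] at this
      have h5 : h.1 * h.1 = 1 := congrArg Prod.fst h4
      exact pi_eq_one.2 (invol _ h5)
    rw [card_eq_mul, hK] at h2 ⊢
    exact mul_mem_G (card_mem _ hb ht) hi h2
  · intro h
    obtain ⟨c, hc, i, hi, rfl⟩ := exists_of_mem_G h
    obtain ⟨Q, rfl⟩ := exists_sub_S c hc
    obtain ⟨K, hK⟩ := Sylow.exists_subgroup_card_pow_prime (G := D) 2 (n := i)
      (by rw [hD]; exact pow_dvd_pow _ hi)
    refine ⟨Q.prod K, ?_, ?_⟩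
    · rw [Nat.card_congr (Subgroup.prodEquiv Q K).toEquiv, Nat.card_prod, hK]
    · intro hn
      apply not_normal Q hc
      refine ⟨fun x hx g => ?_⟩
      have h1 := hn.conj_mem (x, 1) (Subgroup.mem_prod.2 ⟨hx, K.one_mem⟩) (g, 1)
      exact (Subgroup.mem_prod.1 h1).1

theorem ie_S_prod [Finite D] {a : ℕ} (hD : Nat.card D = 2 ^ a) : ie (S × D) = 3 * a + 9 := by
  rw [ie, nonNormalOrders_S_prod hD, Set.ncard_coe_finset, card_G]

theorem not_solvable_S : ¬ Group.IsSolvable (S × D) := by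
  intro h
  have h1 : Group.IsSolvable A5 := Group.isSolvable_of_surjective (f := P (D := D)) P_surjective
  have h2 := IsSimpleGroup.comm_iff_isSolvable.2 h1
  have h3 : ∀ a b : A5, a * b = b * a := h2
  revert h3
  decide +kernel

theorem not_simple_S : ¬ IsSimpleGroup (S × D) := by
  intro h
  have h1 : (P (D := D)).ker.Normal := inferInstance
  rcases h1.eq_bot_or_eq_top with h2 | h2
  · have h3 : ((z, 1) : S × D) ∈ (P (D := D)).ker := pi_eq_one.2 (Or.inr rfl)
    rw [h2, Subgroup.mem_bot] at h3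
    exact z_ne_one (congrArg Prod.fst h3)
  · have h3 : ((A 0, 1) : S × D) ∈ (P (D := D)).ker := by rw [h2]; trivial
    have h4 : A 0 = 1 ∨ A 0 = z := pi_eq_one.1 h3
    revert h4
    decide +kernel

end main

end Pool.Agent.KS6_57.SG
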