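import Pool.Graph.R_pool_sql_team_seeded_2aa45f1a.Results.MP_927db0_al.BothSetsFinite

/-!
# The orders of the non-normal subgroups of `A₅` and of `A₅ × D`, `|D| = 7`
-/

set_option autoImplicit false

namespace Pool.Agent.KS6_57.SG

open Pool.Agent.Q115.A5Sub Pool.Agent.Results.MP_927db0_al.BothSetsFinite

theorem nonNormalOrders_A5 : nonNormalOrders A5 = ↑({2, 3, 4, 5, 6, 10, 12} : Finset ℕ) := by
  ext n
  constructor
  · rintro ⟨H, rfl, hH⟩
    refine card_mem H ?_ ?_
    · rintro rfl; exact hH inferInstance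
    · rintro rfl; exact hH inferInstance
  · intro h
    obtain ⟨P, hP⟩ := exists_sub n h
    refine ⟨P, hP, fun hn => ?_⟩
    rcases hn.eq_bot_or_eq_top with h1 | h1
    · rw [h1, Subgroup.card_bot] at hP
      subst hP
      revert h; simp
    · rw [h1, Subgroup.card_top, card_A5] at hP
      subst hP
      revert h; simp

theorem ie_A5 : ie A5 = 7 := by
  rw [ie, nonNormalOrders_A5, Set.ncard_coe_finset]
  rfl

theorem not_solvable_A5 : ¬ Group.IsSolvable A5 := by
  intro h1
  have h2 := IsSimpleGroup.comm_iff_isSolvable.2 h1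
  have h3 : ∀ a b : A5, a * b = b * a := h2
  revert h3
  decide +kernel

section main

variable {D : Type} [CommGroup D]

theorem eq_prod_of_top_seven [Finite D] (hD : Nat.card D = 7) (H : Subgroup (A5 × D))
    (h : pr H = ⊤) : H = (⊤ : Subgroup A5).prod (tr H) := by
  set N : Subgroup A5 := H.comap (MonoidHom.inl A5 D) with hN
  have hNm : ∀ g : A5, g ∈ N ↔ (g, (1 : D)) ∈ H := fun g => Iff.rfl
  have hNn : N.Normal := by
    refine ⟨fun n hn g => ?_⟩
    have hg : g ∈ pr H := by rw [h]; trivial
    obtain ⟨d, hd⟩ := mem_pr.1 hg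
    rw [hNm] at hn ⊢
    have h1 := H.mul_mem (H.mul_mem hd hn) (H.inv_mem hd)
    have h2 : (g, d) * (n, (1 : D)) * (g, d)⁻¹ = (g * n * g⁻¹, 1) := by
      ext
      · rfl
      · simp
    rwa [h2] at h1
  rcases hNn.eq_bot_or_eq_top with hb | ht
  · exfalso
    have hinj : Function.Injective ((MonoidHom.snd A5 D).comp H.subtype) := by
      rw [injective_iff_map_eq_one]
      rintro ⟨⟨g, d⟩, hx⟩ (hd : d = 1)
      subst hd
      have h1 : g ∈ N := hx
      rw [hb, Subgroup.mem_bot] at h1
      subst h1
      rfl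
    have h1 : Nat.card H ∣ 7 := by
      rw [← hD]
      exact Subgroup.card_dvd_of_injective _ hinj
    have h2 : 60 ∣ Nat.card H := by
      rw [card_eq, h]
      have : Nat.card (⊤ : Subgroup A5) = 60 := by rw [Subgroup.card_top, card_A5]
      rw [this]
      exact Dvd.intro _ rfl
    have h3 := dvd_trans h2 h1
    revert h3
    decide
  · ext ⟨g, d⟩
    rw [Subgroup.mem_prod, mem_tr]
    have hg : (g, (1 : D)) ∈ H := by rw [← hNm, ht]; trivial
    constructor
    · intro hx
      refine ⟨trivial, ?_⟩
      have h1 := H.mul_mem (H.inv_mem hg) hx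
      have h2 : (g, (1 : D))⁻¹ * (g, d) = (1, d) := by
        ext
        · simp
        · simp
      rwa [h2] at h1
    · rintro ⟨-, h1⟩
      have h2 : (g, (1 : D)) * (1, d) = (g, d) := by
        ext
        · simp
        · simp
      have h3 := H.mul_mem hg h1
      rwa [h2] at h3

theorem nonNormalOrders_seven [Finite D] (hD : Nat.card D = 7) :
    nonNormalOrders (A5 × D) =
      ↑({2, 3, 4, 5, 6, 10, 12, 14, 21, 28, 35, 42, 70, 84} : Finset ℕ) := by
  have h7 : Nat.Prime 7 := by norm_num
  ext n
  constructor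
  · rintro ⟨H, rfl, hH⟩
    have hK : Nat.card (tr H) = 1 ∨ Nat.card (tr H) = 7 := by
      have : Nat.card (tr H) ∣ 7 := by rw [← hD]; exact Subgroup.card_subgroup_dvd_card _
      exact (Nat.dvd_prime h7).1 this
    have hb : pr H ≠ ⊥ := by
      intro hb
      apply hH
      rw [eq_prod_of_bot H hb]
      infer_instance
    have ht : pr H ≠ ⊤ := by
      intro ht
      apply hH
      rw [eq_prod_of_top_seven hD H ht]
      infer_instance
    have h1 := card_mem _ hb ht
    rw [card_eq, Finset.mem_coe]
    revert h1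
    generalize Nat.card (pr H) = c
    intro h1
    simp only [Finset.mem_insert, Finset.mem_singleton] at h1
    rcases h1 with rfl | rfl | rfl | rfl | rfl | rfl | rfl <;> rcases hK with h | h <;> rw [h] <;>
      decide
  · intro h
    have hex : ∃ c ∈ ({2, 3, 4, 5, 6, 10, 12} : Finset ℕ), n = c ∨ n = c * 7 := by
      simp only [Finset.coe_insert, Finset.coe_singleton, Set.mem_insert_iff,
        Set.mem_singleton_iff] at h
      rcases h with rfl | rfl | rfl | rfl | rfl | rfl | rfl | rfl | rfl | rfl | rfl | rfl | rfl | rfl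
      exacts [⟨2, by decide, by norm_num⟩, ⟨3, by decide, by norm_num⟩,
        ⟨4, by decide, by norm_num⟩, ⟨5, by decide, by norm_num⟩, ⟨6, by decide, by norm_num⟩,
        ⟨10, by decide, by norm_num⟩, ⟨12, by decide, by norm_num⟩, ⟨2, by decide, by norm_num⟩,
        ⟨3, by decide, by norm_num⟩, ⟨4, by decide, by norm_num⟩, ⟨5, by decide, by norm_num⟩,
        ⟨6, by decide, by norm_num⟩, ⟨10, by decide, by norm_num⟩, ⟨12, by decide, by norm_num⟩]
    obtain ⟨c, hc, hn⟩ := hex
    obtain ⟨P, hP⟩ := exists_sub c hc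
    have hPn : ¬ P.Normal := by
      intro hPn
      rcases hPn.eq_bot_or_eq_top with h1 | h1
      · rw [h1, Subgroup.card_bot] at hP
        subst hP
        revert hc; decide
      · rw [h1, Subgroup.card_top, card_A5] at hP
        subst hP
        revert hc; decide
    have key : ∀ K : Subgroup D, ¬ (P.prod K).Normal := by
      intro K hn
      apply hPn
      refine ⟨fun x hx g => ?_⟩
      have h1 := hn.conj_mem (x, 1) (Subgroup.mem_prod.2 ⟨hx, K.one_mem⟩) (g, 1)
      exact (Subgroup.mem_prod.1 h1).1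
    rcases hn with rfl | rfl
    · refine ⟨P.prod ⊥, ?_, key _⟩
      rw [Nat.card_congr (Subgroup.prodEquiv P _).toEquiv, Nat.card_prod, hP, Subgroup.card_bot,
        mul_one]
    · refine ⟨P.prod ⊤, ?_, key _⟩
      rw [Nat.card_congr (Subgroup.prodEquiv P _).toEquiv, Nat.card_prod, hP, Subgroup.card_top,
        hD]

theorem ie_seven [Finite D] (hD : Nat.card D = 7) : ie (A5 × D) = 14 := by
  rw [ie, nonNormalOrders_seven hD, Set.ncard_coe_finset]
  rfl

end main

end Pool.Agent.KS6_57.SG
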